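import Pool.Agent.H5.RPG.Stmts

/-!
Row PTM of the board `rpg`: polynomial time.
-/

set_option autoImplicit false

namespace Pool.RPG

open Filter TMLib Pool.PG

namespace PTM

variable {α : Type} [Enc α]

theorem own' (h : PV1Stmt) {f : α → Game} {v : α → ℕ} (hf : PTime f) (hv : PTime v) :
    PTime (fun x => own (f x) (v x)) :=
  PTime.comp2 (g := fun (g : Game) (v : ℕ) => own g v) h.2.1 hf hv

theorem pri' (h : PV1Stmt) {f : α → Game} {v : α → ℕ} (hf : PTime f) (hv : PTime v) :
    PTime (fun x => pri (f x) (v x)) :=
  PTime.comp2 (g := fun (g : Game) (v : ℕ) => pri g v) h.2.2.1 hf hv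

theorem suc' (h : PV1Stmt) {f : α → Game} {v : α → ℕ} (hf : PTime f) (hv : PTime v) :
    PTime (fun x => suc (f x) (v x)) :=
  PTime.comp2 (g := fun (g : Game) (v : ℕ) => suc g v) h.2.2.2.1 hf hv

theorem vx' (h : PV1Stmt) {f : α → Game} {v : α → ℕ} (hf : PTime f) (hv : PTime v) :
    PTime (fun x => vx (f x) (v x)) :=
  PTime.comp2 (g := fun (g : Game) (v : ℕ) => vx g v) h.1 hf hv

theorem evb' (h : PV1Stmt) {f : α → ℕ} (hf : PTime f) : PTime (fun x => evb (f x)) :=
  h.2.2.2.2.2.1.comp hf

theorem beq' {β : Type} [Enc β] [EncInj β] [DecidableEq β] {f g : α → β} (hf : PTime f)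
    (hg : PTime g) : PTime (fun x => f x == g x) :=
  (PTime.eq hf hg).congr fun x => by
    by_cases h : f x = g x <;> simp [h]

theorem hd0 {f : α → List ℕ} (hf : PTime f) : PTime (fun x => (f x).headD 0) :=
  (PTime.getD (PTime.head? hf) (PTime.const 0)).congr fun x => by
    cases f x <;> rfl

/-- a truth value from a list -/
theorem gt {l : α → List Bool} {v : α → ℕ} (hl : PTime l) (hv : PTime v) :
    PTime (fun x => (l x).getD (v x) false) :=
  PTime.listGetD hl hv (PTime.const false)

theorem sz_bl (l : List Bool) (g : Game) (h : l.length = g.length) : sz l ≤ 1 + sz g * 4 := by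
  have h1 := sz_list_le l (sz g) 3 (by have := length_lt_sz g; omega) (fun a _ => sz_bool_le a)
  omega

/-- iterates -/
theorem iter (step : Game → List Bool → List Bool) (ini : Game → List Bool)
    (hs : PTime fun p : Game × List Bool => step p.1 p.2) (hi : PTime ini)
    (h1 : ∀ g S, (step g S).length = g.length) (h2 : ∀ g, (ini g).length = g.length) :
    PTime (fun g : Game => (step g)^[g.length] (ini g)) := by
  have hp : ∀ (g : Game) (S : List Bool) (i : ℕ),
      (fun s : Game × List Bool => (s.1, step s.1 s.2))^[i] (g, S) = (g, (step g)^[i] S) := by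
    intro g S i
    induction i with
    | zero => rfl
    | succ i ih => rw [Function.iterate_succ_apply', ih, Function.iterate_succ_apply']
  have hl : ∀ (g : Game) (i : ℕ), ((step g)^[i] (ini g)).length = g.length := by
    intro g i
    cases i with
    | zero => exact h2 g
    | succ i => rw [Function.iterate_succ_apply', h1]
  have h := PTime.iter (f := fun s : Game × List Bool => (s.1, step s.1 s.2))
    (s := fun g : Game => (g, ini g)) (n := fun g => g.length)
    (PTime.pair (PTime.fst PTime.id) hs) (PTime.pair PTime.id hi) (PTime.length PTime.id)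
    (h := fun g => 5 * sz g + 2) (((PB.const 5).mul PB.sz_self).add (PB.const 2)) (by
      intro g i _
      rw [hp]
      have := sz_bl _ g (hl g i)
      simp only [sz_pair]
      omega)
  exact (PTime.snd h).congr fun g => by rw [hp]

theorem pq0 (h : PV1Stmt) (i : Bool) : PTime (q0 i) := by
  refine (PTime.map (l := fun g : Game => List.range g.length)
    (g := fun (g : Game) (v : ℕ) => (own g v == i) && (evb (pri g v) == i))
    (PTime.range (PTime.length PTime.id)) ?_).congr fun _ => rfl
  exact PTime.and (beq' (own' h (PTime.fst PTime.id) (PTime.snd PTime.id)) (PTime.const i))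
    (beq' (evb' h (pri' h (PTime.fst PTime.id) (PTime.snd PTime.id))) (PTime.const i))

theorem pany (h : PV1Stmt) {f : α → Game} {l : α → List Bool} {v : α → ℕ} (hf : PTime f)
    (hl : PTime l) (hv : PTime v) :
    PTime (fun x => (suc (f x) (v x)).any fun w => (l x).getD w false) :=
  PTime.any (l := fun x => suc (f x) (v x)) (g := fun x w => (l x).getD w false)
    (suc' h hf hv) (gt (hl.comp (PTime.fst PTime.id)) (PTime.snd PTime.id))

theorem pall (h : PV1Stmt) {f : α → Game} {l : α → List Bool} {v : α → ℕ} (hf : PTime f)
    (hl : PTime l) (hv : PTime v) :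
    PTime (fun x => (suc (f x) (v x)).all fun w => (l x).getD w false) :=
  PTime.all (l := fun x => suc (f x) (v x)) (g := fun x w => (l x).getD w false)
    (suc' h hf hv) (gt (hl.comp (PTime.fst PTime.id)) (PTime.snd PTime.id))

theorem pkst (h : PV1Stmt) : PTime (fun p : Game × List Bool => kst p.1 p.2) := by
  refine (PTime.map (l := fun p : Game × List Bool => List.range p.1.length)
    (g := fun (p : Game × List Bool) (v : ℕ) =>
      p.2.getD v false && (suc p.1 v).any fun w => p.2.getD w false)
    (PTime.range (PTime.length (PTime.fst PTime.id))) ?_).congr fun _ => rfl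
  have h1 : PTime fun q : (Game × List Bool) × ℕ => q.1.1 := PTime.fst (PTime.fst PTime.id)
  have h2 : PTime fun q : (Game × List Bool) × ℕ => q.1.2 := PTime.snd (PTime.fst PTime.id)
  have h3 : PTime fun q : (Game × List Bool) × ℕ => q.2 := PTime.snd PTime.id
  exact PTime.and (gt h2 h3) (pany h h1 h2 h3)

theorem past (h : PV1Stmt) (i : Bool) : PTime (fun p : Game × List Bool => ast i p.1 p.2) := by
  refine (PTime.map (l := fun p : Game × List Bool => List.range p.1.length)
    (g := fun (p : Game × List Bool) (v : ℕ) => p.2.getD v false ||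
      (if own p.1 v = i then (suc p.1 v).any fun w => p.2.getD w false
      else (suc p.1 v).all fun w => p.2.getD w false))
    (PTime.range (PTime.length (PTime.fst PTime.id))) ?_).congr fun _ => rfl
  have h1 : PTime fun q : (Game × List Bool) × ℕ => q.1.1 := PTime.fst (PTime.fst PTime.id)
  have h2 : PTime fun q : (Game × List Bool) × ℕ => q.1.2 := PTime.snd (PTime.fst PTime.id)
  have h3 : PTime fun q : (Game × List Bool) × ℕ => q.2 := PTime.snd PTime.id
  exact PTime.or (gt h2 h3) (PTime.ite (PTime.eq (own' h h1 h3) (PTime.const i))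
    (pany h h1 h2 h3) (pall h h1 h2 h3))

theorem length_kst (g : Game) (S : List Bool) : (kst g S).length = g.length := by
  simp [kst]

theorem length_ast (i : Bool) (g : Game) (S : List Bool) : (ast i g S).length = g.length := by
  simp [ast]

theorem length_q0 (i : Bool) (g : Game) : (q0 i g).length = g.length := by
  simp [q0]

theorem length_iter (g : Game) (step : List Bool → List Bool) (S : List Bool)
    (h1 : ∀ S, (step S).length = g.length) (h2 : S.length = g.length) (n : ℕ) :
    (step^[n] S).length = g.length := by
  cases n with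
  | zero => exact h2
  | succ n => rw [Function.iterate_succ_apply', h1]

theorem pK (h : PV1Stmt) (i : Bool) : PTime (K i) :=
  iter kst (q0 i) (pkst h) (pq0 h i) length_kst (length_q0 i)

theorem length_K (i : Bool) (g : Game) : (K i g).length = g.length :=
  length_iter g (kst g) _ (length_kst g) (length_q0 i g) _

theorem pR (h : PV1Stmt) (i : Bool) : PTime (R i) :=
  iter (ast i) (K i) (past h i) (pK h i) (length_ast i) (length_K i)

theorem pU (h : PV1Stmt) : PTime U := by
  refine (PTime.map (l := fun g : Game => List.range g.length)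
    (g := fun (g : Game) (v : ℕ) => !(R true g).getD v false && !(R false g).getD v false)
    (PTime.range (PTime.length PTime.id)) ?_).congr fun _ => rfl
  have h1 : PTime fun q : Game × ℕ => q.1 := PTime.fst PTime.id
  have h2 : PTime fun q : Game × ℕ => q.2 := PTime.snd PTime.id
  exact PTime.and (PTime.not (gt ((pR h true).comp h1) h2))
    (PTime.not (gt ((pR h false).comp h1) h2))

theorem psu (h : PV1Stmt) {f : α → Game} {v : α → ℕ} (hf : PTime f) (hv : PTime v) :
    PTime (fun x => su (f x) (v x)) :=
  (PTime.filter (l := fun x => suc (f x) (v x)) (g := fun x w => (U (f x)).getD w false)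
    (suc' h hf hv) (gt ((pU h).comp (hf.comp (PTime.fst PTime.id))) (PTime.snd PTime.id))).congr
    fun _ => rfl

theorem pgood (h : PV1Stmt) : PTime good := by
  refine (PTime.all (l := fun g : Game => List.range g.length)
    (g := fun (g : Game) (v : ℕ) =>
      !(U g).getD v false || (su g v).all fun w => w == (su g v).headD 0)
    (PTime.range (PTime.length PTime.id)) ?_).congr fun _ => rfl
  have h1 : PTime fun q : Game × ℕ => q.1 := PTime.fst PTime.id
  have h2 : PTime fun q : Game × ℕ => q.2 := PTime.snd PTime.id
  refine PTime.or (PTime.not (gt ((pU h).comp h1) h2)) ?_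
  refine PTime.all (l := fun q : Game × ℕ => su q.1 q.2)
    (g := fun (q : Game × ℕ) (w : ℕ) => w == (su q.1 q.2).headD 0) (psu h h1 h2) ?_
  exact beq' (PTime.snd PTime.id) (hd0 ((psu h h1 h2).comp (PTime.fst PTime.id)))

theorem pred (h : PV1Stmt) : PTime red := by
  refine (PTime.map (l := fun g : Game => List.range g.length)
    (g := fun (g : Game) (v : ℕ) =>
      ((vx g v).1, [if (U g).getD v false = true then (su g v).headD 0 else v]))
    (PTime.range (PTime.length PTime.id)) ?_).congr fun _ => rfl
  have h1 : PTime fun q : Game × ℕ => q.1 := PTime.fst PTime.id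
  have h2 : PTime fun q : Game × ℕ => q.2 := PTime.snd PTime.id
  exact PTime.pair (PTime.fst (vx' h h1 h2)) (PTime.cons (PTime.ite
    (PTime.decide_true' (gt ((pU h).comp h1) h2)) (hd0 (psu h h1 h2)) h2) (PTime.const []))

theorem plab (h : PV1Stmt) (h' : PEVStmt) : PTime lab := by
  have h1 : PTime fun q : Game × ℕ => q.1 := PTime.fst PTime.id
  have h2 : PTime fun q : Game × ℕ => q.2 := PTime.snd PTime.id
  refine (PTime.ite (c := fun g : Game => good g = true) (PTime.decide_true' (pgood h))
    (PTime.map (l := fun g : Game => List.range g.length)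
      (g := fun (g : Game) (v : ℕ) =>
        (R true g).getD v false || (!(R false g).getD v false && ev v (red g)))
      (PTime.range (PTime.length PTime.id)) ?_) (PTime.const [])).congr fun _ => rfl
  exact PTime.or (gt ((pR h true).comp h1) h2) (PTime.and
    (PTime.not (gt ((pR h false).comp h1) h2))
    (PTime.comp2 (g := fun (v : ℕ) (g : Game) => ev v g) h' h2 ((pred h).comp h1)))

end PTM

theorem ptm_thm (h1 : PV1Stmt) (h2 : PEVStmt) : PTMStmt :=
  ⟨PTM.pK h1, PTM.pR h1, PTM.pgood h1, PTM.pred h1, PTM.plab h1 h2⟩

end Pool.RPG
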